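import Mathlib

namespace Pool.Agent.Results.MP_e74ad6_co.Concurrency

open Finset

/-- The 3d division points on the boundary of the triangle (0,0), (d,0), (0,d). -/
def Marked (d : ℕ) (q : ℝ × ℝ) : Prop :=
  ∃ i j : ℕ, i + j ≤ d ∧ (i = 0 ∨ j = 0 ∨ i + j = d) ∧ q = ((i : ℝ), (j : ℝ))

/-- The two points lie on a common side of the triangle. -/
def SameSide (d : ℕ) (q r : ℝ × ℝ) : Prop :=
  (q.1 = 0 ∧ r.1 = 0) ∨ (q.2 = 0 ∧ r.2 = 0) ∨ (q.1 + q.2 = d ∧ r.1 + r.2 = d)

/-- The lines of the Wang-Shi split. -/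
def lines (d : ℕ) : Set (AffineSubspace ℝ (ℝ × ℝ)) :=
  {l | ∃ q r, Marked d q ∧ Marked d r ∧ ¬ SameSide d q r ∧ l = line[ℝ, q, r]}

def On (u v : ℝ) (z : ℤ × ℤ) : Prop := 0 < z.1 ∧ 0 < z.2 ∧ u * z.2 + v * z.1 = z.1 * z.2

lemma On.gt {u v : ℝ} (hu : 0 < u) (hv : 0 < v) {z : ℤ × ℤ} (h : On u v z) :
    u < z.1 ∧ v < z.2 := by
  obtain ⟨h1, h2, h3⟩ := h
  have h1' : (0 : ℝ) < z.1 := by exact_mod_cast h1
  have h2' : (0 : ℝ) < z.2 := by exact_mod_cast h2
  constructor <;> nlinarith [mul_pos hu h2', mul_pos hv h1']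

lemma On.anti {u v : ℝ} (hu : 0 < u) (hv : 0 < v) {x y x' y' : ℝ} (hx : u < x) (hx' : u < x')
    (h : u * y + v * x = x * y) (h' : u * y' + v * x' = x' * y') (hl : x < x') : y' < y := by
  have e : (x - u) * (y - v) = u * v := by linarith
  have e' : (x' - u) * (y' - v) = u * v := by linarith
  have p := mul_pos hu hv
  by_contra hc
  have hy : 0 < y - v := by
    by_contra hn
    nlinarith
  nlinarith

lemma gap {u v : ℝ} (hu : 0 < u) (hv : 0 < v) {z w : ℤ × ℤ} (hz : On u v z) (hw : On u v w)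
    (hl : z.1 < w.1) :
    z.1 - z.2 + (if u * v < (z.1 - u) ^ 2 then 1 else 0) + 3 ≤
      w.1 - w.2 + (if u * v < (w.1 - u) ^ 2 then 1 else 0) := by
  have a := (hz.gt hu hv).1
  have b := (hw.gt hu hv).1
  have hl' : (z.1 : ℝ) < w.1 := by exact_mod_cast hl
  have hy : w.2 < z.2 := by exact_mod_cast On.anti hu hv a b hz.2.2 hw.2.2 hl'
  have sq : (z.1 - u) ^ 2 < (w.1 - u) ^ 2 := by nlinarith
  have key : w.1 = z.1 + 1 → w.2 = z.2 - 1 → (z.1 - u) * (w.1 - u) = u * v := by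
    intro e1 e2
    have h1 := hz.2.2
    have h2 := hw.2.2
    rw [e1, e2] at h2
    rw [e1]
    push_cast at h2 ⊢
    have : (z.2 : ℝ) - v = z.1 + 1 - u := by linarith
    rw [← this]
    linarith
  split_ifs with c1 c2 c2
  · by_contra hc
    have := key (by omega) (by omega)
    nlinarith
  · linarith
  · omega
  · by_contra hc
    have := key (by omega) (by omega)
    nlinarith

lemma count {u v : ℝ} (hu : 0 < u) (hv : 0 < v) (T : Finset (ℤ × ℤ)) (xl xh yl yh : ℤ)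
    (hT : ∀ z ∈ T, On u v z ∧ xl ≤ z.1 ∧ z.1 ≤ xh ∧ yl ≤ z.2 ∧ z.2 ≤ yh)
    (h0 : 0 ≤ xh - xl + (yh - yl) + 4) : 3 * (T.card : ℤ) ≤ xh - xl + (yh - yl) + 4 := by
  classical
  let f : ℤ × ℤ → ℤ := fun z =>
    (z.1 - z.2 + (if u * v < (z.1 - u) ^ 2 then 1 else 0) - (xl - yh)) / 3
  have hm : ∀ z ∈ T, f z ∈ Finset.Ico 0 ((xh - xl + (yh - yl) + 4) / 3) := by
    intro z hz
    obtain ⟨-, h1, h2, h3, h4⟩ := hT z hz
    simp only [f, Finset.mem_Ico]
    split_ifs <;> omega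
  have hi : Set.InjOn f T := by
    intro z hz w hw e
    have a := (hT z hz).1
    have b := (hT w hw).1
    rcases lt_trichotomy z.1 w.1 with h | h | h
    · have := gap hu hv a b h
      simp only [f] at e
      omega
    · have h1 := a.2.2
      have h2 := b.2.2
      have g := (a.gt hu hv).1
      rw [← h] at h2
      have : (z.2 : ℝ) = w.2 := by
        have : (z.1 - u) * ((z.2 : ℝ) - w.2) = 0 := by linarith
        rcases mul_eq_zero.1 this with k | k <;> linarith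
      exact Prod.ext h (by exact_mod_cast this)
    · have := gap hu hv b a h
      simp only [f] at e
      omega
  have := Finset.card_le_card_of_injOn f hm hi
  rw [Int.card_Ico] at this
  omega

open Classical in
noncomputable def arc (d : ℕ) (u v : ℝ) : Finset (ℤ × ℤ) :=
  (Finset.Icc (1 : ℤ) d ×ˢ Finset.Icc (1 : ℤ) (d - 1)).filter (On u v)

lemma arc_le (d : ℕ) {u v F G : ℝ} (hu : 0 < u) (hv : 0 < v) (huv : u + v < d)
    (hF : F * (d - v) = u * d) (hG : G * (d - u) = v * d) :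
    3 * ((arc d u v).card : ℤ) ≤ 2 * d + 1 + ⌈F⌉ - 2 * ⌊F⌋ - 2 * ⌈G⌉ + ⌊G⌋ := by
  classical
  have hd : (0 : ℝ) < d := by linarith
  have F1 : u < F := by
    by_contra hc
    nlinarith [mul_pos hu hv]
  have F2 : F < d := by
    by_contra hc
    nlinarith
  have G2 : G < d := by
    by_contra hc
    nlinarith
  have F3 : ⌈F⌉ ≤ d := Int.ceil_le.2 (by exact_mod_cast F2.le)
  have G3 : ⌈G⌉ ≤ d := Int.ceil_le.2 (by exact_mod_cast G2.le)
  have c1 := Int.floor_le_ceil F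
  have c2 := Int.ceil_le_floor_add_one F
  have c3 := Int.floor_le_ceil G
  have c4 := Int.ceil_le_floor_add_one G
  have bd : ∀ z : ℤ × ℤ, On u v z → z.1 ≤ d → z.2 ≤ d →
      ⌈F⌉ ≤ z.1 ∧ ⌈G⌉ ≤ z.2 ∧ z.1 ≤ d - (⌈G⌉ - ⌊G⌋) := by
    intro z hz h1 h2
    obtain ⟨a, b⟩ := hz.gt hu hv
    have h1' : (z.1 : ℝ) ≤ d := by exact_mod_cast h1
    have h2' : (z.2 : ℝ) ≤ d := by exact_mod_cast h2
    refine ⟨Int.ceil_le.2 ?_, Int.ceil_le.2 ?_, ?_⟩
    · by_contra hc
      have := On.anti hu hv a F1 hz.2.2 (y' := d) (by linarith) (by linarith)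
      linarith
    · rcases h1'.lt_or_eq with k | k
      · exact (On.anti hu hv a (by linarith) hz.2.2 (y' := G) (by linarith) k).le
      · have h3 := hz.2.2
        rw [k] at h3
        have : (d - u) * (G - z.2) = 0 := by linarith
        rcases mul_eq_zero.1 this with k | k <;> linarith
    · rcases h1.lt_or_eq with k | k
      · omega
      · have h3 := hz.2.2
        rw [k] at h3
        push_cast at h3
        have : (d - u) * (G - z.2) = 0 := by linarith
        have e : G = z.2 := by rcases mul_eq_zero.1 this with k | k <;> linarith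
        rw [e]
        simp [k]
  by_cases hI : ⌈F⌉ = ⌊F⌋
  · have eF : ((⌈F⌉ : ℤ) : ℝ) = F :=
      le_antisymm (by rw [hI]; exact Int.floor_le F) (Int.le_ceil F)
    have on : On u v (⌈F⌉, d) := by
      refine ⟨Int.ceil_pos.2 (by linarith), by simp only; exact_mod_cast hd, ?_⟩
      simp only [eF]
      push_cast
      linarith
    have nm : ((⌈F⌉, d) : ℤ × ℤ) ∉ arc d u v := by simp [arc]
    have := count hu hv (insert (⌈F⌉, (d : ℤ)) (arc d u v)) ⌈F⌉ (d - (⌈G⌉ - ⌊G⌋)) ⌈G⌉ d ?_ (by omega)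
    · rw [card_insert_of_notMem nm] at this
      push_cast at this
      omega
    · intro z hz
      rcases mem_insert.1 hz with rfl | hz
      · have := bd _ on F3 le_rfl
        exact ⟨on, this.1, this.2.2, this.2.1, le_rfl⟩
      · simp only [arc, mem_filter, mem_product, mem_Icc] at hz
        have := bd z hz.2 hz.1.1.2 (by omega)
        exact ⟨hz.2, this.1, this.2.2, this.2.1, by omega⟩
  · have := count hu hv (arc d u v) ⌈F⌉ (d - (⌈G⌉ - ⌊G⌋)) ⌈G⌉ (d - 1) ?_ (by omega)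
    · omega
    · intro z hz
      simp only [arc, mem_filter, mem_product, mem_Icc] at hz
      have := bd z hz.2 hz.1.1.2 (by omega)
      exact ⟨hz.2, this.1, this.2.2, this.2.1, by omega⟩

lemma total (d : ℕ) {a b c : ℝ} (ha : 0 < a) (hb : 0 < b) (hc : 0 < c) (h : a + b + c = d) :
    (arc d b c).card + (arc d c a).card + (arc d a b).card ≤ d + 1 := by
  have e1 : d - c = a + b := by linarith
  have e2 : d - a = b + c := by linarith
  have e3 : d - b = c + a := by linarith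
  have h1 := arc_le d hb hc (by linarith) (F := b * d / (a + b)) (G := d - a * d / (c + a))
    (by rw [e1]; field_simp) (by rw [e3]; field_simp; ring)
  have h2 := arc_le d hc ha (by linarith) (F := c * d / (b + c)) (G := d - b * d / (a + b))
    (by rw [e2]; field_simp) (by rw [e1]; field_simp; ring)
  have h3 := arc_le d ha hb (by linarith) (F := a * d / (c + a)) (G := d - c * d / (b + c))
    (by rw [e3]; field_simp) (by rw [e2]; field_simp; ring)
  have k1 : ∀ x : ℝ, ⌈(d : ℝ) - x⌉ = d - ⌊x⌋ := by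
    intro x
    rw [sub_eq_add_neg, add_comm, Int.ceil_add_natCast, Int.ceil_neg]; ring
  have k2 : ∀ x : ℝ, ⌊(d : ℝ) - x⌋ = d - ⌈x⌉ := by
    intro x
    rw [sub_eq_add_neg, add_comm, Int.floor_add_natCast, Int.floor_neg]; ring
  rw [k1, k2] at h1 h2 h3
  omega

def lA (z : ℤ × ℤ) : AffineSubspace ℝ (ℝ × ℝ) := line[ℝ, ((z.1 : ℝ), (0 : ℝ)), ((0 : ℝ), (z.2 : ℝ))]
def lB (d : ℕ) (z : ℤ × ℤ) : AffineSubspace ℝ (ℝ × ℝ) :=
  line[ℝ, ((d : ℝ) - z.1, (z.1 : ℝ)), ((d : ℝ) - z.2, (0 : ℝ))]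
def lC (d : ℕ) (z : ℤ × ℤ) : AffineSubspace ℝ (ℝ × ℝ) :=
  line[ℝ, ((0 : ℝ), (d : ℝ) - z.1), ((z.2 : ℝ), (d : ℝ) - z.2)]

lemma mem_line {p q r : ℝ × ℝ} (h : p ∈ line[ℝ, q, r]) :
    (p.1 - q.1) * (r.2 - q.2) = (p.2 - q.2) * (r.1 - q.1) := by
  obtain ⟨t, rfl⟩ := mem_affineSpan_pair_iff_exists_lineMap_eq.1 h
  simp [AffineMap.lineMap_apply]
  ring

theorem result (d : ℕ) (p : ℝ × ℝ) (h1 : 0 < p.1) (h2 : 0 < p.2) (h3 : p.1 + p.2 < d) :
    {l | l ∈ lines d ∧ p ∈ l}.encard ≤ d + 1 := by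
  classical
  have t := total d (a := d - p.1 - p.2) (b := p.1) (c := p.2) (by linarith) h1 h2 (by ring)
  set a := (d : ℝ) - p.1 - p.2 with ha
  have sub : {l | l ∈ lines d ∧ p ∈ l} ⊆
      ↑((arc d p.1 p.2).image lA ∪ (arc d p.2 a).image (lB d) ∪ (arc d a p.1).image (lC d)) := by
    have A : ∀ x y : ℕ, 0 < x → x ≤ d → 0 < y → y < d → p ∈ lA (x, y) →
        lA (x, y) ∈ (arc d p.1 p.2).image lA := by
      intro x y k1 k2 k3 k4 hp
      have := mem_line hp
      refine mem_image_of_mem _ ?_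
      simp only [arc, mem_filter, mem_product, mem_Icc, On]
      refine ⟨by omega, by omega, by omega, ?_⟩
      simp only at this
      linarith
    have B : ∀ x y : ℕ, 0 < x → x ≤ d → 0 < y → y < d → p ∈ lB d (x, y) →
        lB d (x, y) ∈ (arc d p.2 a).image (lB d) := by
      intro x y k1 k2 k3 k4 hp
      have := mem_line hp
      refine mem_image_of_mem _ ?_
      simp only [arc, mem_filter, mem_product, mem_Icc, On]
      refine ⟨by omega, by omega, by omega, ?_⟩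
      simp only at this
      rw [ha]
      linarith
    have C : ∀ x y : ℕ, 0 < x → x ≤ d → 0 < y → y < d → p ∈ lC d (x, y) →
        lC d (x, y) ∈ (arc d a p.1).image (lC d) := by
      intro x y k1 k2 k3 k4 hp
      have := mem_line hp
      refine mem_image_of_mem _ ?_
      simp only [arc, mem_filter, mem_product, mem_Icc, On]
      refine ⟨by omega, by omega, by omega, ?_⟩
      simp only at this
      rw [ha]
      linarith
    have main : ∀ i j k l : ℕ, i + j ≤ d → k + l ≤ d →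
        ((j = 0 ∧ k = 0 ∧ 0 < i ∧ 0 < l ∧ l < d) ∨ (i + j = d ∧ l = 0 ∧ 0 < j ∧ 0 < k ∧ k < d) ∨
          (i = 0 ∧ k + l = d ∧ j < d ∧ 0 < k ∧ k < d)) →
        p ∈ line[ℝ, ((i : ℝ), (j : ℝ)), ((k : ℝ), (l : ℝ))] →
        line[ℝ, ((i : ℝ), (j : ℝ)), ((k : ℝ), (l : ℝ))] ∈
          (arc d p.1 p.2).image lA ∪ (arc d p.2 a).image (lB d) ∪ (arc d a p.1).image (lC d) := by
      intro i j k l s1 s2 hc hp
      simp only [mem_union]
      rcases hc with ⟨rfl, rfl, k1, k2, k3⟩ | ⟨e, rfl, k1, k2, k3⟩ | ⟨rfl, e, k1, k2, k3⟩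
      · have e : line[ℝ, ((i : ℝ), ((0 : ℕ) : ℝ)), (((0 : ℕ) : ℝ), (l : ℝ))] = lA (i, l) := by
          simp [lA]
        rw [e] at hp ⊢
        exact Or.inl (Or.inl (A i l k1 (by omega) k2 k3 hp))
      · have e : line[ℝ, ((i : ℝ), (j : ℝ)), ((k : ℝ), ((0 : ℕ) : ℝ))] =
            lB d (j, (d - k : ℕ)) := by
          have : (i : ℝ) = d - j := by rw [← e]; push_cast; ring
          simp [lB, Nat.cast_sub k3.le, this]
        rw [e] at hp ⊢
        exact Or.inl (Or.inr (B j (d - k) k1 (by omega) (by omega) (by omega) hp))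
      · have e : line[ℝ, (((0 : ℕ) : ℝ), (j : ℝ)), ((k : ℝ), (l : ℝ))] =
            lC d ((d - j : ℕ), k) := by
          have : (l : ℝ) = d - k := by rw [← e]; push_cast; ring
          simp [lC, Nat.cast_sub k1.le, this]
        rw [e] at hp ⊢
        exact Or.inr (C (d - j) k (by omega) (by omega) k2 k3 hp)
    rintro _ ⟨⟨q, r, ⟨i, j, s1, m1, rfl⟩, ⟨k, l, s2, m2, rfl⟩, hs, rfl⟩, hp⟩
    have hs' : ¬ ((i = 0 ∧ k = 0) ∨ (j = 0 ∧ l = 0) ∨ (i + j = d ∧ k + l = d)) := by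
      intro h
      apply hs
      unfold SameSide
      simp only
      exact_mod_cast h
    by_cases hc : (j = 0 ∧ k = 0 ∧ 0 < i ∧ 0 < l ∧ l < d) ∨
        (i + j = d ∧ l = 0 ∧ 0 < j ∧ 0 < k ∧ k < d) ∨ (i = 0 ∧ k + l = d ∧ j < d ∧ 0 < k ∧ k < d)
    · exact main i j k l s1 s2 hc hp
    · rw [Set.pair_comm] at hp ⊢
      exact main k l i j s2 s1 (by omega) hp
  refine (Set.encard_le_encard sub).trans ?_
  rw [Set.encard_coe_eq_coe_finsetCard]
  have := (card_union_le _ _).trans (Nat.add_le_add ((card_union_le _ _).trans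
    (Nat.add_le_add (card_image_le (s := arc d p.1 p.2) (f := lA))
      (card_image_le (s := arc d p.2 a) (f := lB d)))) (card_image_le (s := arc d a p.1) (f := lC d)))
  exact_mod_cast this.trans t

end Pool.Agent.Results.MP_e74ad6_co.Concurrency
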